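import Pool.Agent.H79.NFG.Defs
import Pool.Agent.H79.NFG.Proof

/-!
# A unital simple separable C*-algebra that is not finitely generated
-/

namespace Pool.Agent.Results.MP_704412_an.NotFinitelyGenerated

open Pool.NFG

/-- **Theorem.** There is a nonzero unital separable C*-algebra `A`, without two-sided ideals
other than `0` and `A`, such that for every finite set `F ⊆ A` the unital C*-subalgebra
generated by `F` is not all of `A`. In particular no single element generates `A`. -/
theorem result : ∃ (A : Type) (_ : CStarAlgebra A), Simple A ∧ Separable A ∧
    ∀ F : Set A, F.Finite → ¬ Generates A F :=
  main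

end Pool.Agent.Results.MP_704412_an.NotFinitelyGenerated
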