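import Mathlib
import Pool.Agent.H27.ZDR.Proof

/-!
# MP_704412_an: unital simple separable C*-algebras with a regular zero-dimensional subalgebra

A unital simple separable C*-algebra with an infinite-dimensional commutative C*-subalgebra that is
spanned by its projections and which, together with its relative commutant and normalizer, generates
everything, is singly generated. The proof is in `Pool.Agent.H27.ZDR.Proof`.
-/

namespace Pool.Agent.Results.MP_704412_an.ZeroDimRegular

/-- **Theorem.** Let `A` be a unital simple separable C*-algebra and `D ⊆ A` a unital commutative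
C*-subalgebra which is infinite-dimensional and is the closed linear span of its projections.
If `A` is generated as a C*-algebra by the relative commutant of `D` together with the normalizer
`{n | n D n* ⊆ D and n* D n ⊆ D}` of `D`, then `A` is singly generated: some `x ∈ A` is contained in
no proper C*-subalgebra of `A` (unital or not). -/
theorem result {A : Type*} [CStarAlgebra A] [TopologicalSpace.SeparableSpace A]
    (hsimple : ∀ I : TwoSidedIdeal A, IsClosed (I : Set A) → I = ⊥ ∨ I = ⊤)
    (D : StarSubalgebra ℂ A) (hDclosed : IsClosed (D : Set A))
    (hDcomm : ∀ x ∈ D, ∀ y ∈ D, x * y = y * x)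
    (hDproj : (D : Set A) ⊆
      closure (Submodule.span ℂ {p : A | p ∈ D ∧ IsStarProjection p} : Set A))
    (hDinf : ¬ FiniteDimensional ℂ D)
    (hgen : (StarAlgebra.adjoin ℂ (Set.centralizer (D : Set A) ∪
      {n : A | (∀ d ∈ D, n * d * star n ∈ D) ∧ ∀ d ∈ D, star n * d * n ∈ D})).topologicalClosure
        = ⊤) :
    ∃ x : A, NonUnitalStarAlgebra.elemental ℂ x = ⊤ :=
  Pool.Agent.H27.ZDR.zeroDimRegular hsimple D hDclosed hDcomm hDproj hDinf hgen

end Pool.Agent.Results.MP_704412_an.ZeroDimRegular
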